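import Pool.Agent.N658.SP.Bcp

/-!
# Renorming to fail the `(-1)`-ball covering property: the renorming
Project BCP (helper658), part Ren (helper694).
-/

set_option autoImplicit false

namespace Pool.Agent.N694.BCP

open Cardinal Pool.Agent.N658.SP.Bcp

universe u

section L1

variable {Γ : Type u}

theorem hasSum_abs (w : lp (fun _ : Γ => ℝ) 1) : HasSum (fun g => |w g|) ‖w‖ := by
  have h := lp.hasSum_norm (p := 1) (by norm_num) w
  simpa using h

/-- a choice of signs -/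
noncomputable def sgn (s : Γ → Bool) (g : Γ) : ℝ := if s g then 1 else -1

theorem abs_sgn (s : Γ → Bool) (g : Γ) : |sgn s g| = 1 := by
  unfold sgn
  split_ifs <;> simp

theorem summable_sgn (s : Γ → Bool) (w : lp (fun _ : Γ => ℝ) 1) :
    Summable (fun g => sgn s g * w g) := by
  refine Summable.of_norm ?_
  have h : (fun g => ‖sgn s g * w g‖) = fun g => |w g| := by
    funext g
    rw [Real.norm_eq_abs, abs_mul, abs_sgn, one_mul]
  rw [h]
  exact (hasSum_abs w).summable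

/-- the functional of the signs `s` -/
noncomputable def phi (s : Γ → Bool) : lp (fun _ : Γ => ℝ) 1 →ₗ[ℝ] ℝ where
  toFun w := ∑' g, sgn s g * w g
  map_add' v w := by
    rw [← (summable_sgn s v).tsum_add (summable_sgn s w)]
    congr 1
    funext g
    rw [lp.coeFn_add, Pi.add_apply]
    ring
  map_smul' r w := by
    rw [RingHom.id_apply, smul_eq_mul, ← tsum_mul_left]
    congr 1
    funext g
    rw [lp.coeFn_smul, Pi.smul_apply, smul_eq_mul]
    ring

theorem phi_le (s : Γ → Bool) (w : lp (fun _ : Γ => ℝ) 1) : |phi s w| ≤ ‖w‖ := by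
  have h : (fun g => ‖sgn s g * w g‖) = fun g => |w g| := by
    funext g
    rw [Real.norm_eq_abs, abs_mul, abs_sgn, one_mul]
  have h1 : Summable fun g => ‖sgn s g * w g‖ := by
    rw [h]
    exact (hasSum_abs w).summable
  have h2 := norm_tsum_le_tsum_norm h1
  rw [h, (hasSum_abs w).tsum_eq] at h2
  exact h2

open Classical in
theorem phi_single (s : Γ → Bool) (g : Γ) : phi s (lp.single 1 g (1 : ℝ)) = sgn s g := by
  change ∑' k, sgn s k * (lp.single 1 g (1 : ℝ) : lp (fun _ : Γ => ℝ) 1) k = sgn s g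
  rw [tsum_eq_single g]
  · rw [lp.single_apply_self, mul_one]
  · intro k hk
    have h5 := lp.single_apply_ne (E := fun _ : Γ => ℝ) 1 g (1 : ℝ) hk
    exact (congrArg (fun z => sgn s k * z) h5).trans (mul_zero _)

variable {X : Type u} [NormedAddCommGroup X] [NormedSpace ℝ X]

open Classical in
/-- the functionals with prescribed signs -/
theorem exists_fun (T : lp (fun _ : Γ => ℝ) 1 →L[ℝ] X) {c : ℝ} (hc : 0 < c)
    (hT : ∀ w, c * ‖w‖ ≤ ‖T w‖) (s : Γ → Bool) :
    ∃ f : X →L[ℝ] ℝ, ‖f‖ ≤ 1 / c ∧ ∀ g, f (T (lp.single 1 g (1 : ℝ))) = if s g then 1 else -1 := by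
  have hinj : Function.Injective T.toLinearMap := by
    rw [← LinearMap.ker_eq_bot, LinearMap.ker_eq_bot']
    intro w hw
    have h1 := hT w
    have h2 : T w = 0 := hw
    rw [h2, norm_zero] at h1
    have h3 : ‖w‖ = 0 := by
      have := norm_nonneg w
      nlinarith
    exact norm_eq_zero.1 h3
  let E := LinearEquiv.ofInjective T.toLinearMap hinj
  let F : (LinearMap.range T.toLinearMap) →ₗ[ℝ] ℝ := (phi s).comp E.symm.toLinearMap
  have hb : ∀ x, ‖F x‖ ≤ 1 / c * ‖x‖ := by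
    intro x
    have h1 : ‖F x‖ ≤ ‖E.symm x‖ := phi_le s (E.symm x)
    have h2 := hT (E.symm x)
    have h3 : T (E.symm x) = (x : X) := by
      have := LinearEquiv.apply_symm_apply E x
      exact congrArg Subtype.val this
    rw [h3] at h2
    have h4 : ‖E.symm x‖ ≤ 1 / c * ‖x‖ := by
      rw [one_div, inv_mul_eq_div, le_div_iff₀ hc, mul_comm]
      exact h2
    exact h1.trans h4
  obtain ⟨f, hf, hfn⟩ := exists_extension_norm_eq _ (F.mkContinuous (1 / c) hb)
  refine ⟨f, ?_, fun g => ?_⟩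
  · rw [hfn]
    exact LinearMap.mkContinuous_norm_le _ (by positivity) hb
  · have h1 := hf (E (lp.single 1 g (1 : ℝ)))
    have h2 : ((E (lp.single 1 g (1 : ℝ)) : LinearMap.range T.toLinearMap) : X) =
        T (lp.single 1 g (1 : ℝ)) := rfl
    rw [h2] at h1
    rw [h1, LinearMap.mkContinuous_apply]
    change phi s (E.symm (E (lp.single 1 g (1 : ℝ)))) = _
    rw [LinearEquiv.symm_apply_apply, phi_single]
    rfl

open Classical in
/-- a functional with the signs of `w` -/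
theorem eval_sign (T : lp (fun _ : Γ => ℝ) 1 →L[ℝ] X) (f : X →L[ℝ] ℝ)
    (w : lp (fun _ : Γ => ℝ) 1)
    (hf : ∀ g, f (T (lp.single 1 g (1 : ℝ))) = if 0 ≤ w g then 1 else -1) :
    f (T w) = ‖w‖ := by
  have h1 := lp.hasSum_single (p := 1) (by norm_num) w
  have h2 := h1.mapL (f.comp T)
  have h3 : (fun g => (f.comp T) (lp.single 1 g (w g))) = fun g => |w g| := by
    funext g
    have h4 : lp.single 1 g (w g) = (w g) • (lp.single 1 g (1 : ℝ) : lp (fun _ : Γ => ℝ) 1) := by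
      rw [← lp.single_smul, smul_eq_mul, mul_one]
    rw [h4, map_smul, ContinuousLinearMap.comp_apply, hf, smul_eq_mul]
    split_ifs with h
    · rw [mul_one, abs_of_nonneg h]
    · rw [abs_of_neg (not_le.1 h)]
      ring
  rw [h3] at h2
  exact h2.unique (hasSum_abs w)

end L1

section Sup

variable {X : Type u} [NormedAddCommGroup X] [NormedSpace ℝ X]

/-- the supremum of the values of the functionals in `K` -/
noncomputable def Ns (K : Set (X →L[ℝ] ℝ)) (y : X) : ℝ := ⨆ f : K, |f.1 y|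

variable {K : Set (X →L[ℝ] ℝ)} {C : ℝ}

theorem Ns_bdd (hK : ∀ f ∈ K, ‖f‖ ≤ C) (y : X) : BddAbove (Set.range fun f : K => |f.1 y|) := by
  refine ⟨C * ‖y‖, ?_⟩
  rintro _ ⟨f, rfl⟩
  exact (f.1.le_opNorm y).trans (mul_le_mul_of_nonneg_right (hK f.1 f.2) (norm_nonneg y))

theorem le_Ns (hK : ∀ f ∈ K, ‖f‖ ≤ C) {f : X →L[ℝ] ℝ} (hf : f ∈ K) (y : X) : |f y| ≤ Ns K y :=
  le_ciSup (Ns_bdd hK y) (⟨f, hf⟩ : K)

theorem Ns_le (hne : K.Nonempty) {y : X} {B : ℝ} (h : ∀ f ∈ K, |f y| ≤ B) : Ns K y ≤ B := by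
  have : Nonempty K := hne.to_subtype
  exact ciSup_le fun f => h f.1 f.2

theorem exists_near (hne : K.Nonempty) (y : X) {B : ℝ} (h : B < Ns K y) :
    ∃ f ∈ K, B < |f y| := by
  have : Nonempty K := hne.to_subtype
  obtain ⟨f, hf⟩ := exists_lt_of_lt_ciSup h
  exact ⟨f.1, f.2, hf⟩

/-- the seminorm -/
noncomputable def NS (hne : K.Nonempty) (hK : ∀ f ∈ K, ‖f‖ ≤ C) : Seminorm ℝ X :=
  Seminorm.ofSMulLE (Ns K)
    (by
      apply le_antisymm
      · exact Ns_le hne fun f _ => by rw [map_zero, abs_zero]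
      · obtain ⟨f, hf⟩ := hne
        exact (abs_nonneg (f 0)).trans (le_Ns hK hf 0))
    (fun x y => Ns_le hne fun f hf => by
      rw [map_add]
      exact (abs_add_le _ _).trans (add_le_add (le_Ns hK hf x) (le_Ns hK hf y)))
    (fun r x => Ns_le hne fun f hf => by
      rw [map_smul, smul_eq_mul, abs_mul, Real.norm_eq_abs]
      exact mul_le_mul_of_nonneg_left (le_Ns hK hf x) (abs_nonneg r))

/-- the distance to the subspace `Z` -/
noncomputable def QS (Z : Submodule ℝ X) : Seminorm ℝ X :=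
  (normSeminorm ℝ (X ⧸ Z)).comp Z.mkQ

theorem QS_le (Z : Submodule ℝ X) (y : X) : QS Z y ≤ ‖y‖ := Submodule.Quotient.norm_mk_le Z y

theorem QS_zero {Z : Submodule ℝ X} {z : X} (hz : z ∈ Z) : QS Z z = 0 := by
  change ‖Z.mkQ z‖ = 0
  rw [Submodule.mkQ_apply, (Submodule.Quotient.mk_eq_zero Z).2 hz, norm_zero]

theorem QS_sub {Z : Submodule ℝ X} {z : X} (hz : z ∈ Z) (a : X) : QS Z (z - a) = QS Z a := by
  change ‖Z.mkQ (z - a)‖ = ‖Z.mkQ a‖
  rw [map_sub, Submodule.mkQ_apply, (Submodule.Quotient.mk_eq_zero Z).2 hz, zero_sub, norm_neg]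

theorem QS_near (Z : Submodule ℝ X) (y : X) {δ : ℝ} (hδ : 0 < δ) :
    ∃ m : X, y - m ∈ Z ∧ ‖m‖ < QS Z y + δ := by
  obtain ⟨m, hm, hmn⟩ := Submodule.Quotient.norm_mk_lt (Z.mkQ y) hδ
  refine ⟨m, ?_, hmn⟩
  have h1 : Submodule.Quotient.mk y = (Submodule.Quotient.mk m : X ⧸ Z) := hm.symm
  exact (Submodule.Quotient.eq Z).1 h1

end Sup

section Card

variable {Γ X : Type u} {κ : Cardinal.{u}}

/-- an index outside `κ` finite sets -/
theorem exists_outside (hκ : ℵ₀ ≤ κ) (hΓ : #Γ = Order.succ κ) (A : Set X) (hA : #A = κ)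
    (F : A → ℕ → Finset Γ) : ∃ g : Γ, ∀ a k, g ∉ F a k := by
  by_contra hcon
  push Not at hcon
  have h1 : (Set.univ : Set Γ) = ⋃ p : A × ULift.{u} ℕ, (F p.1 p.2.down : Set Γ) := by
    symm
    rw [Set.eq_univ_iff_forall]
    intro g
    obtain ⟨a, k, h⟩ := hcon g
    exact Set.mem_iUnion.2 ⟨(a, ULift.up k), h⟩
  have h2 : #(Set.univ : Set Γ) ≤ κ := by
    rw [h1]
    refine (mk_iUnion_le_sum_mk).trans ?_
    refine (sum_le_sum _ (fun _ => ℵ₀) fun p => ?_).trans ?_
    · exact (Set.Finite.lt_aleph0 (Finset.finite_toSet _)).le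
    · rw [sum_const', mk_prod, lift_id, lift_id, hA, mk_uLift, mk_nat, lift_aleph0]
      rw [mul_aleph0_eq hκ, mul_aleph0_eq hκ]
  rw [mk_univ, hΓ] at h2
  exact absurd h2 (not_le.2 (Order.lt_succ κ))

end Card

open Classical in
theorem stmRen (h : StmIrr.{u}) : StmRen.{u} := by
  intro κ hκ Γ hΓ X _ _ ⟨T, c, hc, hT⟩
  obtain ⟨K, hKC, hKe, hKs, hK⟩ := h Γ X (fun g => T (lp.single 1 g (1 : ℝ))) (1 / c)
    (fun s => exists_fun T hc hT s)
  have hne : K.Nonempty := by
    obtain ⟨f, hf, -⟩ := hKs (fun _ => true)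
    exact ⟨f, hf⟩
  have hC0 : 0 < 1 / c := by positivity
  let Z : Submodule ℝ X := LinearMap.range T.toLinearMap
  have hZ : ∀ w, T w ∈ Z := fun w => ⟨w, rfl⟩
  have hNle : ∀ y, Ns K y ≤ 1 / c * ‖y‖ := fun y => Ns_le hne fun f hf =>
    (f.le_opNorm y).trans (mul_le_mul_of_nonneg_right (hKC f hf) (norm_nonneg y))
  have hNT : ∀ w, ‖w‖ ≤ Ns K (T w) := by
    intro w
    obtain ⟨f, hf, hfs⟩ := hKs (fun g => decide (0 ≤ w g))
    have h1 := eval_sign T f w (fun g => by rw [hfs g]; simp)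
    have h2 := le_Ns hKC hf (T w)
    rw [h1] at h2
    exact (le_abs_self _).trans h2
  have hNneg : ∀ y, Ns K (-y) = Ns K y := fun y => map_neg_eq_map (NS hne hKC) y
  have hNadd : ∀ x y, Ns K (x + y) ≤ Ns K x + Ns K y := fun x y => map_add_le_add (NS hne hKC) x y
  have hp : ∀ y, (NS hne hKC + QS Z) y = Ns K y + QS Z y := fun y => rfl
  refine ⟨NS hne hKC + QS Z, ?_, ?_⟩
  · -- equivalent
    have hM : 0 < 1 + ‖T‖ * (1 / c) + ‖T‖ := by positivity
    refine ⟨(1 + ‖T‖ * (1 / c) + ‖T‖)⁻¹, 1 / c + 1, by positivity, fun y => ⟨?_, ?_⟩⟩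
    · rw [inv_mul_le_iff₀ hM, hp]
      have hN0 : 0 ≤ Ns K y := apply_nonneg (NS hne hKC) y
      have hQ0 : 0 ≤ QS Z y := apply_nonneg (QS Z) y
      have hT0 : 0 ≤ ‖T‖ := norm_nonneg T
      have hmain : ‖y‖ ≤ (1 + ‖T‖ * (1 / c)) * QS Z y + ‖T‖ * Ns K y := by
        refine le_of_forall_pos_le_add fun δ hδ => ?_
        have hδ' : 0 < δ / (1 + ‖T‖ * (1 / c)) := by positivity
        obtain ⟨m, hm, hmn⟩ := QS_near Z y hδ'
        obtain ⟨w, hw⟩ := hm
        have hw' : T w = y - m := hw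
        have h1 : ‖y - m‖ ≤ ‖T‖ * (Ns K y + 1 / c * ‖m‖) := by
          rw [← hw']
          refine (T.le_opNorm w).trans (mul_le_mul_of_nonneg_left ?_ hT0)
          refine (hNT w).trans ?_
          rw [hw', sub_eq_add_neg]
          refine (hNadd _ _).trans ?_
          rw [hNneg]
          linarith [hNle m]
        have h2 : ‖y‖ ≤ ‖m‖ + ‖y - m‖ := by
          have := norm_add_le m (y - m)
          rwa [add_sub_cancel] at this
        have h3 : (1 + ‖T‖ * (1 / c)) * ‖m‖ ≤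
            (1 + ‖T‖ * (1 / c)) * (QS Z y + δ / (1 + ‖T‖ * (1 / c))) :=
          mul_le_mul_of_nonneg_left hmn.le (by positivity)
        have h4 : (1 + ‖T‖ * (1 / c)) * (QS Z y + δ / (1 + ‖T‖ * (1 / c))) =
            (1 + ‖T‖ * (1 / c)) * QS Z y + δ := by
          field_simp
        rw [h4] at h3
        nlinarith
      have h5 : 0 ≤ ‖T‖ * (1 / c) := by positivity
      nlinarith [mul_nonneg hT0 hQ0, mul_nonneg h5 hN0]
    · rw [hp]
      have h1 := hNle y
      have h2 := QS_le Z y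
      linarith
  · -- fails
    intro A hA
    have hch : ∀ (a : A) (k : ℕ), ∃ f ∈ K, Ns K a.1 - 1 / ((k : ℝ) + 1) < |f a.1| := by
      intro a k
      exact exists_near hne a.1 (sub_lt_self _ (by positivity))
    choose f hf hfa using hch
    have hF : ∀ (a : A) (k : ℕ), ∃ F : Finset Γ, ∀ g, g ∉ F → ∀ t : Bool,
        ∃ h ∈ K, h (T (lp.single 1 g (1 : ℝ))) = (if t then 1 else -1) ∧
          |h a.1 - f a k a.1| < 1 / ((k : ℝ) + 1) :=
      fun a k => hK a.1 (f a k) (hf a k) (1 / ((k : ℝ) + 1)) (by positivity)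
    choose F hF using hF
    obtain ⟨g, hg⟩ := exists_outside hκ hΓ A hA F
    refine ⟨T (lp.single 1 g (1 : ℝ)), ?_, ?_⟩
    · rw [hp, QS_zero (hZ _), add_zero]
      apply le_antisymm
      · refine Ns_le hne fun f hf => ?_
        rcases hKe f hf g with h1 | h1 <;> rw [h1] <;> norm_num
      · obtain ⟨f, hf⟩ := hne
        refine le_trans ?_ (le_Ns hKC hf _)
        rcases hKe f hf g with h1 | h1 <;> rw [h1] <;> norm_num
    · intro a ha
      rw [hp, hp, QS_sub (hZ _) a]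
      have hmain : ∀ k : ℕ, Ns K a + 1 - 2 / ((k : ℝ) + 1) ≤
          Ns K (T (lp.single 1 g (1 : ℝ)) - a) := by
        intro k
        have h1 := hfa ⟨a, ha⟩ k
        have h2 := hF ⟨a, ha⟩ k g (hg ⟨a, ha⟩ k)
        have hdd : (2 : ℝ) / ((k : ℝ) + 1) = 1 / ((k : ℝ) + 1) + 1 / ((k : ℝ) + 1) := by ring
        rw [hdd]
        by_cases hs : 0 ≤ f ⟨a, ha⟩ k a
        · obtain ⟨u, hu, hu1, hu2⟩ := h2 false
          have h3 := le_Ns hKC hu (T (lp.single 1 g (1 : ℝ)) - a)
          rw [map_sub, hu1] at h3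
          simp only [Bool.false_eq_true, if_false] at h3
          rw [abs_of_nonneg hs] at h1
          have h4 := (abs_lt.1 hu2).1
          have h5 := neg_abs_le ((-1 : ℝ) - u a)
          linarith
        · obtain ⟨u, hu, hu1, hu2⟩ := h2 true
          have h3 := le_Ns hKC hu (T (lp.single 1 g (1 : ℝ)) - a)
          rw [map_sub, hu1] at h3
          simp only [if_true] at h3
          rw [abs_of_neg (not_le.1 hs)] at h1
          have h4 := (abs_lt.1 hu2).2
          have h5 := le_abs_self ((1 : ℝ) - u a)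
          linarith
      have hlim : Filter.Tendsto (fun k : ℕ => Ns K a + 1 - 2 / ((k : ℝ) + 1)) Filter.atTop
          (nhds (Ns K a + 1 - 0)) := by
        refine tendsto_const_nhds.sub ?_
        have h1 := (tendsto_one_div_add_atTop_nhds_zero_nat (𝕜 := ℝ)).const_mul 2
        rw [mul_zero] at h1
        refine h1.congr fun k => ?_
        ring
      have h6 := le_of_tendsto' hlim hmain
      linarith

end Pool.Agent.N694.BCP
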